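import Pool.Agent.H.MP_097bbc_lc.A
import Pool.Agent.H.MP_097bbc_lc.B

namespace Pool.Agent.Results.MP_097bbc_lc.Yes
open Classical Filter

/-- orientation determinant of three points of the plane -/
def ori (a b c : ℝ × ℝ) : ℝ := (b.1 - a.1) * (c.2 - a.2) - (b.2 - a.2) * (c.1 - a.1)

/-- no two points of `T` share a coordinate, and `h` gives new heights: each new point
`(t.1, h t)` lies above all points placed before it (those lower in `T`) and above every line
through two of them -/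
def Stretching (T : Finset (ℝ × ℝ)) (h : ℝ × ℝ → ℝ) : Prop :=
  (∀ a ∈ T, ∀ b ∈ T, a ≠ b → a.1 ≠ b.1 ∧ a.2 ≠ b.2) ∧
  (∀ a ∈ T, ∀ t ∈ T, a.2 < t.2 → h a < h t) ∧
  ∀ a ∈ T, ∀ b ∈ T, ∀ t ∈ T, a ≠ b → a.2 < t.2 → b.2 < t.2 →
    h a + (h b - h a) / (b.1 - a.1) * (t.1 - a.1) < h t

/-- `S` has the order type of the result of stretching some `T` -/
def Stretched (S : Finset (ℝ × ℝ)) : Prop := ∃ T h, Stretching T h ∧ ∃ f : ℝ × ℝ → ℝ × ℝ,
  Set.BijOn f S ((fun t => (t.1, h t)) '' T) ∧ ∀ a ∈ S, ∀ b ∈ S, ∀ c ∈ S,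
    SignType.sign (ori a b c) = SignType.sign (ori (f a) (f b) (f c))

/-- removing at most `ε |S|` points never leaves a stretched subconfiguration -/
def Far (ε : ℝ) (S : Finset (ℝ × ℝ)) : Prop :=
  ∀ D ⊆ S, (D.card : ℝ) ≤ ε * S.card → ¬ Stretched (S \ D)

/-- probability that a uniformly random `k`-point subset of `S` is stretched -/
noncomputable def accept (k : ℕ) (S : Finset (ℝ × ℝ)) : ℝ :=
  (((S.powersetCard k).filter Stretched).card : ℝ) / (S.powersetCard k).card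

theorem result (ε p : ℝ) (e0 : 0 < ε) (e1 : ε < 1) (p0 : 0 < p) (_p1 : p < 1) :
    ∃ k : ℕ → ℕ, (∀ n, k n ≤ n) ∧ (fun n => (k n : ℝ)) =o[atTop] (fun n => (n : ℝ)) ∧
      ∀ S : Finset (ℝ × ℝ), Far ε S → accept (k S.card) S ≤ p := by
  have E : ∀ S, Stretched S ↔ H.MP_0ff5c6_co.Stretched S := fun _ => H.MP_097bbc_lc.str_iff
  obtain ⟨k, h1, h2, h3⟩ := H.MP_097bbc_lc.tester Stretched 481
    (fun S U h s => (E U).mpr (((E S).mp h).mono s))
    (fun S h => by
      obtain ⟨W, a, b, c⟩ := H.MP_0ff5c6_co.small fun k => h ((E S).mpr k)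
      exact ⟨W, a, b, fun k => c ((E W).mp k)⟩) (by norm_num) e0 e1 p0
  refine ⟨k, h1, h2, fun S f => div_le_of_le_mul₀ (by positivity) p0.le ?_⟩
  exact h3 S fun D s c l => f D s c ((congrArg Stretched (Finset.ext fun _ => by simp)).mp l)

end Pool.Agent.Results.MP_097bbc_lc.Yes
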